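import Mathlib
import Pool.Agent.H1.KorDefs
import Pool.Agent.H1.KorB

open Set Pool.Agent.H1.Kor

theorem Pool.Agent.Results.MP_eab5ac_an.Disproof.result : ∃ f : ℝ → ℝ → ℝ,
    ContDiffOn ℝ 1 (Function.uncurry f) (Icc 0 1 ×ˢ Ici 0) ∧
    (∀ r ∈ Icc (0 : ℝ) 1, ∀ u, 0 ≤ u → derivWithin (fun s => f s u) (Icc 0 1) r ≤ 0) ∧
    (∀ r u, 0 < f r u) ∧
    ∃ (l₁ l₂ : ℝ) (u₁ u₂ : ℝ → ℝ), 0 < l₁ ∧ 0 < l₂ ∧ l₁ ≠ l₂ ∧ IsPosSol 3 f l₁ u₁ ∧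
      IsPosSol 3 f l₂ u₂ ∧ u₁ 0 = u₂ 0 :=
  main
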